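import Pool.Agent.T9h45.CP.Spec

/-!
# Piece A: the partition
-/

set_option autoImplicit false
set_option linter.unusedSectionVars false

namespace Pool.Agent.T9h41.CP

open Finset Classical Pool.T9h45.HY Pool.T9h45.CP

variable {V : Type} [Fintype V]

noncomputable def L (M : V → V → ℤ) (f : V → ℤ) (x : V) : ℤ := ∑ y, M x y * f y

noncomputable def Ps (M : V → V → ℤ) (f : V → ℤ) : ℤ := ∑ x, L M f x * f x

lemma sum_upd (g f : V → ℤ) (x : V) (c : ℤ) :
    ∑ y, g y * Function.update f x c y = ∑ y, g y * f y + g x * (c - f x) := by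
  have h : ∀ y, g y * Function.update f x c y =
      g y * f y + (if y = x then g x * (c - f x) else 0) := by
    intro y
    by_cases hy : y = x
    · subst hy
      rw [Function.update_self, if_pos rfl]
      ring
    · rw [Function.update_of_ne hy, if_neg hy, add_zero]
  rw [Finset.sum_congr rfl fun y _ => h y, Finset.sum_add_distrib,
    Finset.sum_ite_eq' univ x, if_pos (Finset.mem_univ x)]

lemma L_upd (M : V → V → ℤ) (f : V → ℤ) (x z : V) (c : ℤ) :
    L M (Function.update f x c) z = L M f z + M z x * (c - f x) := by
  unfold L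
  exact sum_upd (M z) f x c

lemma Ps_upd (M : V → V → ℤ) (hM : ∀ x y, M x y = M y x) (f : V → ℤ) (x : V) (c : ℤ) :
    Ps M (Function.update f x c) =
      Ps M f + 2 * (c - f x) * L M f x + M x x * (c - f x) ^ 2 := by
  have h1 : Ps M (Function.update f x c) =
      ∑ z, (L M f z + M z x * (c - f x)) * Function.update f x c z := by
    unfold Ps
    refine Finset.sum_congr rfl fun z _ => ?_
    rw [L_upd]
  have h2 : ∑ z, M z x * (c - f x) * f z = (c - f x) * L M f x := by
    unfold L
    rw [Finset.mul_sum]
    refine Finset.sum_congr rfl fun z _ => ?_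
    rw [hM z x]
    ring
  rw [h1, sum_upd (fun z => L M f z + M z x * (c - f x)) f x c]
  have h3 : ∑ z, (L M f z + M z x * (c - f x)) * f z = Ps M f + (c - f x) * L M f x := by
    rw [← h2]
    unfold Ps
    rw [← Finset.sum_add_distrib]
    refine Finset.sum_congr rfl fun z _ => ?_
    ring
  rw [h3]
  ring

/-- the matrix -/
noncomputable def Mt (G : SimpleGraph V) (cl : V → V) (x y : V) : ℤ :=
  if cl x = cl y then 1 else if G.Adj x y then -1 else 0

lemma Mt_symm (G : SimpleGraph V) (cl : V → V) (x y : V) : Mt G cl x y = Mt G cl y x := by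
  unfold Mt
  simp only [G.adj_comm x y, eq_comm (a := cl x)]

/-- the signs -/
def sg (s : V → Bool) (x : V) : ℤ := if s x = true then 1 else -1

lemma sg_upd (s : V → Bool) (x : V) :
    sg (Function.update s x (!s x)) = Function.update (sg s) x (-(sg s x)) := by
  funext y
  by_cases hy : y = x
  · subst hy
    rw [Function.update_self]
    unfold sg
    rw [Function.update_self]
    cases s y <;> simp
  · rw [Function.update_of_ne hy]
    unfold sg
    rw [Function.update_of_ne hy]

lemma sg_sq (s : V → Bool) (x : V) : sg s x * sg s x = 1 := by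
  unfold sg
  split_ifs <;> norm_num

lemma cn_cast (P : V → Prop) : ((cn P : ℕ) : ℤ) = ∑ w, if P w then 1 else 0 := by
  unfold cn
  rw [Finset.card_filter]
  push_cast
  rfl

/-- the value of the linear form in terms of the four numbers -/
lemma L_eq (G : SimpleGraph V) (cl : V → V) (s : V → Bool) (x : V) :
    sg s x * L (Mt G cl) (sg s) x =
      sg s x * ((cA (fun v => s v = true) cl x : ℕ) - (cB (fun v => s v = true) cl x : ℕ) : ℤ) -
        (cE G cl x : ℕ) + 2 * (cO G (fun v => s v = true) cl x : ℕ) := by
  unfold cA cB cE cO L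
  simp only [cn_cast]
  rw [Finset.mul_sum, ← Finset.sum_sub_distrib, Finset.mul_sum, Finset.mul_sum,
    ← Finset.sum_sub_distrib, ← Finset.sum_add_distrib]
  refine Finset.sum_congr rfl fun w _ => ?_
  unfold Mt sg
  by_cases h1 : cl x = cl w
  · have h1' : cl w = cl x := h1.symm
    cases hx : s x <;> cases hw : s w <;> simp [h1']
  · have h1' : ¬ cl w = cl x := fun h => h1 h.symm
    by_cases h2 : G.Adj x w
    · cases hx : s x <;> cases hw : s w <;> simp [h1, h1', h2]
    · cases hx : s x <;> cases hw : s w <;> simp [h1, h1', h2]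

/-- **Piece A** -/
theorem part : SPart := by
  intro V _ G cl
  obtain ⟨s, hs⟩ := Finite.exists_min (fun s : V → Bool => Ps (Mt G cl) (sg s))
  have hMM : ∀ x, Mt G cl x x = 1 := by
    intro x
    unfold Mt
    rw [if_pos rfl]
  have hone : ∀ x, sg s x * L (Mt G cl) (sg s) x ≤ 1 := by
    intro x
    have h1 := hs (Function.update s x (!s x))
    rw [sg_upd, Ps_upd _ (Mt_symm G cl), hMM] at h1
    have h2 := sg_sq s x
    nlinarith
  have htwo : ∀ x y, s x = true → s y = false → cl x = cl y →
      sg s x * L (Mt G cl) (sg s) x + sg s y * L (Mt G cl) (sg s) y ≤ 0 := by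
    intro x y hx hy hxy
    have hne : y ≠ x := by
      rintro rfl
      rw [hx] at hy
      exact Bool.noConfusion hy
    have h1 := hs (Function.update (Function.update s x (!s x)) y
      (!(Function.update s x (!s x)) y))
    rw [sg_upd, Ps_upd _ (Mt_symm G cl), sg_upd, Ps_upd _ (Mt_symm G cl), L_upd,
      Function.update_of_ne hne, hMM, hMM] at h1
    have h2 : Mt G cl y x = 1 := by
      unfold Mt
      rw [if_pos hxy.symm]
    have h3 : sg s x = 1 := by
      unfold sg
      rw [if_pos hx]
    have h4 : sg s y = -1 := by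
      unfold sg
      rw [hy]
      rfl
    rw [h2, h3, h4] at h1
    rw [h3, h4]
    linarith
  refine ⟨fun v => s v = true, ?_, ?_, ?_⟩
  · intro x y hx hy hxy
    have hy' : s y = false := by simpa using hy
    have h1 := htwo x y hx hy' hxy
    rw [L_eq, L_eq] at h1
    have h3 : sg s x = 1 := by
      unfold sg
      rw [if_pos hx]
    have h4 : sg s y = -1 := by
      unfold sg
      rw [hy']
      rfl
    rw [h3, h4] at h1
    have h5 : cA (fun v => s v = true) cl x = cA (fun v => s v = true) cl y := by
      unfold cA
      rw [hxy]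
    have h6 : cB (fun v => s v = true) cl x = cB (fun v => s v = true) cl y := by
      unfold cB
      rw [hxy]
    rw [h5, h6] at h1
    have h7 : (2 * (cO G (fun v => s v = true) cl x + cO G (fun v => s v = true) cl y) : ℤ) ≤
        (cE G cl x : ℤ) + cE G cl y := by
      linarith
    exact_mod_cast h7
  · intro x hx
    have h1 := hone x
    rw [L_eq] at h1
    have h3 : sg s x = 1 := by
      unfold sg
      rw [if_pos hx]
    rw [h3] at h1
    have h7 : (2 * cO G (fun v => s v = true) cl x + cA (fun v => s v = true) cl x : ℤ) ≤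
        (cE G cl x : ℤ) + cB (fun v => s v = true) cl x + 1 := by
      linarith
    exact_mod_cast h7
  · intro y hy
    have hy' : s y = false := by simpa using hy
    have h1 := hone y
    rw [L_eq] at h1
    have h4 : sg s y = -1 := by
      unfold sg
      rw [hy']
      rfl
    rw [h4] at h1
    have h7 : (2 * cO G (fun v => s v = true) cl y + cB (fun v => s v = true) cl y : ℤ) ≤
        (cE G cl y : ℤ) + cA (fun v => s v = true) cl y + 1 := by
      linarith
    exact_mod_cast h7

end Pool.Agent.T9h41.CP
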