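import Pool.Agent.T9h45.CP.Spec

/-!
# Piece F: matchings in the complements of the classes
-/

set_option autoImplicit false
set_option linter.unusedSectionVars false

namespace Pool.Agent.T9h41.CP

open Finset Classical Pool.T9h45.HY Pool.T9h45.CP

variable {V : Type} [Fintype V]

lemma cn_eq (P : V → Prop) [DecidablePred P] : cn P = (univ.filter P).card := by
  unfold cn
  congr!

/-- the admissible involutions -/
def Ok (G : SimpleGraph V) (cl : V → V) (μ : ℕ) (σ : V → V) : Prop :=
  (∀ v, σ (σ v) = v) ∧ (∀ v, cl (σ v) = cl v) ∧ (∀ v, ¬ G.Adj v (σ v)) ∧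
    ∀ v, ∃ k ≤ μ, cn (fun w => cl w = cl v ∧ σ w ≠ w) = 2 * k

/-- add one pair -/
noncomputable def add (σ : V → V) (a b : V) (z : V) : V :=
  if z = a then b else if z = b then a else σ z

lemma add_moved (σ : V → V) {a b : V} (hab : a ≠ b) (ha : σ a = a) (hb : σ b = b) (z : V) :
    add σ a b z ≠ z ↔ z = a ∨ z = b ∨ σ z ≠ z := by
  unfold add
  by_cases h1 : z = a
  · subst h1
    simp [hab.symm]
  · by_cases h2 : z = b
    · subst h2
      simp [h1, hab]
    · simp [h1, h2]

lemma add_ok {G : SimpleGraph V} {cl : V → V} {μ : ℕ} {σ : V → V} (h : Ok G cl μ σ) {a b : V}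
    (hab : a ≠ b) (ha : σ a = a) (hb : σ b = b) (hc : cl a = cl b) (hG : ¬ G.Adj a b)
    (hlt : cn (fun w => cl w = cl a ∧ σ w ≠ w) < 2 * μ) : Ok G cl μ (add σ a b) := by
  obtain ⟨h1, h2, h3, h4⟩ := h
  refine ⟨fun z => ?_, fun z => ?_, fun z => ?_, fun v => ?_⟩
  · by_cases hza : z = a
    · subst hza
      simp [add, hab.symm]
    · by_cases hzb : z = b
      · subst hzb
        simp [add, hza]
      · have e1 : σ z ≠ a := by
          intro e
          apply hza
          rw [← h1 z, e, ha]
        have e2 : σ z ≠ b := by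
          intro e
          apply hzb
          rw [← h1 z, e, hb]
        simp [add, hza, hzb, e1, e2, h1]
  · by_cases hza : z = a
    · subst hza
      simp [add, hc]
    · by_cases hzb : z = b
      · subst hzb
        simp [add, hza, hc]
      · simp [add, hza, hzb, h2]
  · by_cases hza : z = a
    · subst hza
      simpa [add] using hG
    · by_cases hzb : z = b
      · subst hzb
        simp only [add, hza, if_false, if_true]
        exact fun e => hG e.symm
      · simpa [add, hza, hzb] using h3 z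
  · obtain ⟨k, hk, hcn⟩ := h4 v
    by_cases hv : cl v = cl a
    · have e1 : (univ.filter fun w => cl w = cl v ∧ add σ a b w ≠ w) =
          insert a (insert b (univ.filter fun w => cl w = cl v ∧ σ w ≠ w)) := by
        ext w
        simp only [Finset.mem_filter, Finset.mem_univ, true_and, Finset.mem_insert]
        rw [add_moved σ hab ha hb]
        constructor
        · rintro ⟨hw, hw1 | hw1 | hw1⟩
          · exact Or.inl hw1
          · exact Or.inr (Or.inl hw1)
          · exact Or.inr (Or.inr ⟨hw, hw1⟩)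
        · rintro (hw1 | hw1 | ⟨hw, hw1⟩)
          · subst hw1
            exact ⟨hv.symm, Or.inl rfl⟩
          · subst hw1
            exact ⟨hc.symm.trans hv.symm, Or.inr (Or.inl rfl)⟩
          · exact ⟨hw, Or.inr (Or.inr hw1)⟩
      have hbn : b ∉ (univ.filter fun w => cl w = cl v ∧ σ w ≠ w) := by
        simp [hb]
      have han : a ∉ insert b (univ.filter fun w => cl w = cl v ∧ σ w ≠ w) := by
        simp [ha, hab]
      have hlt' : cn (fun w => cl w = cl v ∧ σ w ≠ w) < 2 * μ := by
        rw [hv]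
        exact hlt
      refine ⟨k + 1, by omega, ?_⟩
      have hcn' : (univ.filter fun w => cl w = cl v ∧ σ w ≠ w).card = 2 * k := by
        rw [← hcn, cn_eq]
      rw [cn_eq, e1, Finset.card_insert_of_notMem han, Finset.card_insert_of_notMem hbn, hcn']
      ring
    · refine ⟨k, hk, ?_⟩
      rw [← hcn]
      unfold cn
      congr 1
      ext w
      simp only [Finset.mem_filter, Finset.mem_univ, true_and]
      rw [add_moved σ hab ha hb]
      constructor
      · rintro ⟨hw, hw1 | hw1 | hw1⟩
        · subst hw1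
          exact absurd hw.symm hv
        · subst hw1
          exact absurd (hw.symm.trans hc.symm) hv
        · exact ⟨hw, hw1⟩
      · rintro ⟨hw, hw1⟩
        exact ⟨hw, Or.inr (Or.inr hw1)⟩

/-- **Piece F** -/
theorem mtch : SMatch := by
  intro V _ G cl n ν μ hν hn hnu hμ
  have hne : (univ.filter fun σ : V → V => Ok G cl μ σ).Nonempty := by
    refine ⟨id, Finset.mem_filter.2 ⟨Finset.mem_univ _, fun _ => rfl, fun _ => rfl, fun v => ?_,
      fun v => ⟨0, Nat.zero_le _, ?_⟩⟩⟩
    · exact G.irrefl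
    · simp [cn]
  obtain ⟨σ, hσ, hmax⟩ := Finset.exists_max_image (univ.filter fun σ : V → V => Ok G cl μ σ)
    (fun σ => cn fun w => σ w ≠ w) hne
  have hok : Ok G cl μ σ := (Finset.mem_filter.1 hσ).2
  refine ⟨σ, hok.1, hok.2.1, hok.2.2.1, fun v => ?_⟩
  obtain ⟨k, hk, hcn⟩ := hok.2.2.2 v
  rw [hcn]
  rcases hk.eq_or_lt with rfl | hlt
  · rfl
  exfalso
  obtain ⟨h1, h2, h3, -⟩ := hok
  -- the fixed vertices form a clique
  have hcl : ∀ a b, cl a = cl v → cl b = cl v → σ a = a → σ b = b → a ≠ b → G.Adj a b := by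
    intro a b ha hb hσa hσb hab
    by_contra hG
    have hlt' : cn (fun w => cl w = cl a ∧ σ w ≠ w) < 2 * μ := by
      rw [ha, hcn]
      omega
    have hok' := add_ok (Finset.mem_filter.1 hσ).2 hab hσa hσb (ha.trans hb.symm) hG hlt'
    have h5 := hmax (add σ a b) (Finset.mem_filter.2 ⟨Finset.mem_univ _, hok'⟩)
    have h6 : cn (fun w => σ w ≠ w) < cn fun w => add σ a b w ≠ w := by
      refine Finset.card_lt_card ?_
      rw [Finset.ssubset_iff_of_subset]
      · refine ⟨a, ?_, ?_⟩
        · simp only [Finset.mem_filter, Finset.mem_univ, true_and]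
          exact (add_moved σ hab hσa hσb a).2 (Or.inl rfl)
        · simp [hσa]
      · intro w hw
        simp only [Finset.mem_filter, Finset.mem_univ, true_and] at hw ⊢
        exact (add_moved σ hab hσa hσb w).2 (Or.inr (Or.inr hw))
    exact absurd h5 (Nat.not_le.2 h6)
  -- the two parts of the class
  obtain ⟨U, hU⟩ : ∃ U : Finset V, U = univ.filter fun w => cl w = cl v ∧ σ w = w := ⟨_, rfl⟩
  obtain ⟨W, hW⟩ : ∃ W : Finset V, W = univ.filter fun w => cl w = cl v ∧ σ w ≠ w := ⟨_, rfl⟩
  have hUm : ∀ w, w ∈ U ↔ cl w = cl v ∧ σ w = w := by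
    intro w
    rw [hU]
    simp
  have hWm : ∀ w, w ∈ W ↔ cl w = cl v ∧ σ w ≠ w := by
    intro w
    rw [hW]
    simp
  have hWc : W.card = 2 * k := by
    rw [hW, ← hcn, cn_eq]
  have hUW : U.card + W.card = n := by
    have e1 : U ∪ W = univ.filter fun w => cl w = cl v := by
      ext w
      simp only [Finset.mem_union, hUm, hWm, Finset.mem_filter, Finset.mem_univ, true_and]
      tauto
    have e2 : Disjoint U W := by
      rw [Finset.disjoint_left]
      intro w hw1 hw2
      exact ((hWm w).1 hw2).2 ((hUm w).1 hw1).2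
    rw [← Finset.card_union_of_disjoint e2, e1]
    exact hn v
  have hUc : ∀ u ∈ U, ν ≤ (W.filter fun w => ¬ G.Adj u w).card := by
    intro u hu
    obtain ⟨hu1, hu2⟩ := (hUm u).1 hu
    rw [← hnu u, cn_eq]
    refine Finset.card_le_card fun w hw => ?_
    obtain ⟨-, hw1, hw2, hw3⟩ := Finset.mem_filter.1 hw
    refine Finset.mem_filter.2 ⟨(hWm w).2 ⟨hw1.trans hu1, fun hw4 => hw3 ?_⟩, hw3⟩
    exact hcl u w hu1 (hw1.trans hu1) hu2 hw4 hw2.symm
  have hWc' : ∀ w ∈ W, (U.filter fun u => ¬ G.Adj u w).card + 1 ≤ ν := by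
    intro w hw
    obtain ⟨hw1, hw2⟩ := (hWm w).1 hw
    rw [← hnu w, cn_eq]
    have hns : σ w ∉ U.filter fun u => ¬ G.Adj u w := by
      intro h
      have := ((hUm _).1 (Finset.mem_filter.1 h).1).2
      rw [h1] at this
      exact hw2 this.symm
    rw [← Finset.card_insert_of_notMem hns]
    refine Finset.card_le_card fun z hz => ?_
    rcases Finset.mem_insert.1 hz with rfl | hz
    · exact Finset.mem_filter.2 ⟨Finset.mem_univ _, h2 w, hw2, h3 w⟩
    · obtain ⟨hz1, hz2⟩ := Finset.mem_filter.1 hz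
      obtain ⟨hz3, hz4⟩ := (hUm z).1 hz1
      refine Finset.mem_filter.2 ⟨Finset.mem_univ _, hz3.trans hw1.symm, ?_, fun e => hz2 e.symm⟩
      rintro rfl
      exact hw2 hz4
  have hdc := Finset.sum_card_bipartiteAbove_eq_sum_card_bipartiteBelow (s := U) (t := W)
    (fun u w => ¬ G.Adj u w)
  have hl : U.card * ν ≤ ∑ u ∈ U, (W.filter fun w => ¬ G.Adj u w).card := by
    have := Finset.card_nsmul_le_sum U (fun u => (W.filter fun w => ¬ G.Adj u w).card) ν hUc
    rwa [smul_eq_mul] at this
  have hr : ∑ w ∈ W, (U.filter fun u => ¬ G.Adj u w).card ≤ W.card * (ν - 1) := by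
    have := Finset.sum_le_card_nsmul W (fun w => (U.filter fun u => ¬ G.Adj u w).card) (ν - 1)
      (fun w hw => by have := hWc' w hw; omega)
    rwa [smul_eq_mul] at this
  have hfin : U.card * ν ≤ W.card * (ν - 1) := by
    refine hl.trans (le_trans (le_of_eq ?_) hr)
    exact hdc
  have h7 : W.card < U.card := by omega
  have h8 : W.card * (ν - 1) ≤ W.card * ν := Nat.mul_le_mul_left _ (Nat.sub_le _ _)
  have h9 : W.card * ν < U.card * ν := Nat.mul_lt_mul_of_pos_right h7 hν
  omega

end Pool.Agent.T9h41.CP
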